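import Pool.Agent.H681.GF.Main

set_option autoImplicit false

/-!
# MP_80d0cf_nt: the moments of order `2k ≤ 8` with `k` arbitrary fixed shifts and `k` generic shifts

Let `k ≤ 4` (so the sixth and the eighth moments are included) and let `α_1, …, α_k` be ANY fixed real shifts, for example
`α = 0`. For almost all `β ∈ [0, T] ^ k` the integral of `∏_j ζ(1/2 + i(t + α_j)) ζ(1/2 - i(t + β_j))` over `[0, S]`, `S ≤ T`,
is `S ζ_{α,β}(1/2)` up to a power saving; and if the `α_j` are different, it is the integral of the complete prediction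
`Q_k(t; α, β)` of Conrey, Farmer, Keating, Rubinstein and Snaith, up to a power saving.
-/

namespace Pool.Agent.Results.MP_80d0cf_nt.HalfOfTheShiftsFixed

open Complex MeasureTheory Filter

noncomputable section

variable {k : ℕ}

/-- The divisor function `τ_l(n)`: the sum over `d_1 d_2 ⋯ d_k = n` of `∏ j, d_j ^ l_j`. -/
def tau (l : Fin k → ℂ) (n : ℕ) : ℂ :=
  ∑ d ∈ Nat.finMulAntidiag k n, ∏ j, (d j : ℂ) ^ (l j)

/-- The Euler factor of `F(s; a, b)` at the prime `p`. -/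
def localFactor (s : ℂ) (a b : Fin k → ℝ) (p : ℕ) : ℂ :=
  (∏ j, ∏ l, (1 - (p : ℂ) ^ (-(2 * s + I * a j - I * b l)))) *
    ∑' m : ℕ, tau (fun j => I * b j) (p ^ m) * tau (fun j => -(I * a j)) (p ^ m) *
      (p : ℂ) ^ (-(2 * m * s))

/-- The arithmetic factor `F(s; a, b)`, an Euler product. -/
def arithF (s : ℂ) (a b : Fin k → ℝ) : ℂ := ∏' p : Nat.Primes, localFactor s a b p

/-- `ζ_{(a, b)}(s)`, through `F(s; a, b)` and the product of `k ^ 2` zeta functions. -/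
def zetaAB (s : ℂ) (a b : Fin k → ℝ) : ℂ :=
  arithF s a b * ∏ j, ∏ l, riemannZeta (2 * s + I * a j - I * b l)

/-- The factor `χ` of the functional equation `ζ(s) = χ(s) ζ(1 - s)`. -/
def chi (s : ℂ) : ℂ := (Real.pi : ℂ) ^ (s - 1 / 2) * Gamma ((1 - s) / 2) / Gamma (s / 2)

/-- `Z_{α, β}(t)`, where `γ = (α, β)` is indexed by `Fin k ⊕ Fin k`. -/
def Z (γ : Fin k ⊕ Fin k → ℝ) (t : ℝ) : ℂ :=
  ∏ j : Fin k, riemannZeta (1 / 2 + I * (t + γ (Sum.inl j))) *
    riemannZeta (1 / 2 - I * (t + γ (Sum.inr j)))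

/-- `G_γ(π)`, where `π(γ)` has the coordinates `γ (π i)`. -/
def G (γ : Fin k ⊕ Fin k → ℝ) (t : ℝ) (π : Equiv.Perm (Fin k ⊕ Fin k)) : ℂ :=
  (∏ j : Fin k, if (π (Sum.inl j)).isRight then chi (1 / 2 - I * t - I * γ (π (Sum.inl j))) else 1) *
  ∏ j : Fin k, if (π (Sum.inr j)).isLeft then chi (1 / 2 + I * t + I * γ (π (Sum.inr j))) else 1

/-- `Q_k(t; α, β)`: the summand depends only on the class of `π` in `S_{2k} / (S_k × S_k)`, so the
sum over the classes is the sum over all `π`, divided by `(k!) ^ 2`. -/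
def Q (γ : Fin k ⊕ Fin k → ℝ) (t : ℝ) : ℂ :=
  ((Nat.factorial k : ℂ) ^ 2)⁻¹ * ∑ π : Equiv.Perm (Fin k ⊕ Fin k),
    G γ t π * zetaAB (1 / 2) (fun j => γ (π (Sum.inl j))) (fun j => γ (π (Sum.inr j)))

open Pool.Agent.TH612.CF in
lemma zetaAB_eq (a b : Fin k → ℝ) :
    zetaAB (1 / 2) a b = zab (fun j => (a j : ℂ)) (fun j => (b j : ℂ)) := by
  unfold zetaAB zab arithF FH
  congr 1
  · refine tprod_congr fun p => ?_
    unfold localFactor lh lt
    congr 1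
    · refine Finset.prod_congr rfl fun j _ => Finset.prod_congr rfl fun l _ => ?_
      congr 2
      ring
    · refine tsum_congr fun m => ?_
      have hp : ((p : ℕ) : ℂ) ≠ 0 := by exact_mod_cast p.2.ne_zero
      have e : ((p : ℕ) : ℂ) ^ (-(2 * (m : ℂ) * (1 / 2))) = (((p : ℕ) : ℂ) ^ m)⁻¹ := by
        rw [← Complex.cpow_natCast, ← Complex.cpow_neg]
        congr 1; ring
      rw [e]
      rfl
  · refine Finset.prod_congr rfl fun j _ => Finset.prod_congr rfl fun l _ => ?_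
    congr 1
    ring

open Pool.Agent.TH612.CF in
lemma Q_eq (γ : Fin k ⊕ Fin k → ℝ) (t : ℝ) :
    Q γ t = ((Nat.factorial k : ℂ) ^ 2)⁻¹ * Qs t (fun i => (γ i : ℂ)) := by
  unfold Q Qs Rt
  congr 1
  refine Finset.sum_congr rfl fun π _ => ?_
  rw [zetaAB_eq]
  rfl

open Pool.Agent.TH612.CF in
lemma Z_eq (γ : Fin k ⊕ Fin k → ℝ) (t : ℝ) : Z γ t = Zg γ t := rfl

/-- **Moments of order `2k ≤ 8` with `k` arbitrary fixed shifts and `k` generic shifts.** For every `k ≤ 4` there is `δ > 0`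
such that for every `α ∈ ℝ ^ k` and all large `T`, for all `0 ≤ S ≤ T`, the following holds for all `β ∈ [0, T] ^ k` outside
of a set of measure at most `T ^ (k - δ)`:

* `|∫_0^S Z_{α,β}(t) dt - S ζ_{α,β}(1/2)| ≤ T ^ (1 - δ)`;
* if the `α_j` are different, `|∫_0^S (Z_{α,β}(t) - Q_k(t; α, β)) dt| ≤ T ^ (1 - δ)`. -/
theorem result (k : ℕ) (hk : k ≤ 4) :
    (∀ γ : Fin k ⊕ Fin k → ℝ, Continuous (Z γ) ∧ Continuous (Q γ)) ∧
    ∃ δ : ℝ, 0 < δ ∧ ∀ α : Fin k → ℝ, ∃ T₀ : ℝ, ∀ T : ℝ, T₀ ≤ T → ∀ S : ℝ, 0 ≤ S → S ≤ T →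
      volume {β : Fin k → ℝ | (∀ j, 0 ≤ β j ∧ β j ≤ T) ∧
          T ^ (1 - δ) < ‖(∫ t in (0 : ℝ)..S, Z (Sum.elim α β) t) - S * zetaAB (1 / 2) α β‖} ≤
        ENNReal.ofReal (T ^ (k - δ)) ∧
      (Function.Injective α →
        volume {β : Fin k → ℝ | (∀ j, 0 ≤ β j ∧ β j ≤ T) ∧
            T ^ (1 - δ) < ‖∫ t in (0 : ℝ)..S, (Z (Sum.elim α β) t - Q (Sum.elim α β) t)‖} ≤
          ENNReal.ofReal (T ^ (k - δ))) := by
  constructor
  · intro γ
    refine ⟨Pool.Agent.TH612.GS.Zg_cont γ, ?_⟩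
    have e : Q γ = fun t : ℝ => ((Nat.factorial k : ℂ) ^ 2)⁻¹ *
        Pool.Agent.TH612.CF.Qs t (fun i => (γ i : ℂ)) := by
      funext t
      rw [Q_eq]
    rw [e]
    exact continuous_const.mul (Pool.Agent.TH612.GS.Qs_cont γ)
  · have h := Pool.Agent.H681.GF.main k hk
    simp only [Q_eq, Z_eq, zetaAB_eq]
    exact h

end

end Pool.Agent.Results.MP_80d0cf_nt.HalfOfTheShiftsFixed
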