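import Pool.Agent.H480.K10

/-!
# Bounds for all the moments of zeta are a local low-rank property of the divisor functions

Let `m_{2k}(T)` be the mean value of `|ζ(1/2 + it)| ^ (2k)` over `[0, T]`, `d_k(n)` the number of ways to write `n` as
a product of `k` factors and `D_k(x) = ∑_{n ≤ x} d_k(n)`. Fix `A, A' > 1` and look at the kernel
`(x, y) ↦ D_k(X x y)` on the rectangle `[1, A] × [1, A']`. The main term `x P_k(log x)` of `D_k` gives a sum of `k`
products of functions of one variable.

The asymptotic formulas of the question imply `m_{2k}(T) = O(T^ε)` for all `k` and all `ε > 0`. We prove that these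
bounds are equivalent to each of the following statements.

* For all `k` and `η > 0` and all large `X` the kernel `D_k(X x y)` is in the mean within `X^(1/2 + η)` of a sum of
  `k` products `u_i(x) v_i(y)`.
* For all `η > 0` there are arbitrarily large `k` and, for each of them, a number `r` such that for all large `X` the
  kernel is in the mean within `X^(1/2 + η)` of SOME sum of `r` products `u_i(x) v_i(y)`.

Here `u_i`, `v_i` are arbitrary integrable functions; they may depend on `X` in any way, and there is no condition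
which relates the approximations at different scales `X`.

Proof of the main direction. An approximation of rank `r` at the scale `X` gives a linear recurrence of length `r`
for the averages of `D_k(e^u)`, which holds up to `X^(1/2 + η)` in a window around `log X`, with coefficients that
depend on the window. These recurrences are the denominators of Padé type approximants; on a circle which
avoids all their zeros, with a quantitative margin, the approximants of consecutive windows differ by
exponentially small terms, so that the numerators are bounded, and a limit of the recurrences holds for all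
windows at once. The Laplace transform of this global recurrence is `P(e^(hs)) ζ(s)^k / s` with a polynomial
`P ≠ 0`; it is bounded in `Re s ≥ 1/2 + 3η`, and `P(e^(hs))` is bounded from below on almost all vertical lines.
Let `k → ∞`. The converse uses Plancherel's theorem, partial fractions, and the addition law of matrix
exponentials.
-/

set_option autoImplicit false

open Filter Topology MeasureTheory Set
open scoped ArithmeticFunction.zeta

namespace Pool.Agent.Results.MP_80d0cf_nt.MomentsAndLocalRank

/-- the number `d_k(n)` of ways to write `n` as a product of `k` factors: `ζ ^ k` is the `k`-fold Dirichlet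
convolution of the function `ζ(n) = 1` -/
noncomputable def d (k n : ℕ) : ℕ := (ζ ^ k : ArithmeticFunction ℕ) n

/-- `D_k(x) = ∑_{n ≤ x} d_k(n)` -/
noncomputable def D (k : ℕ) (x : ℝ) : ℂ := ∑ n ∈ Finset.Icc 1 ⌊x⌋₊, (d k n : ℂ)

/-- on the rectangle `[1, A] × [1, A']` the kernel `S(X x y)` is in the mean within `ε` of a sum of `r` products
`u_i(x) v_i(y)` of integrable functions of one variable -/
def WithinRank (S : ℝ → ℂ) (A A' : ℝ) (r : ℕ) (ε X : ℝ) : Prop :=
  ∃ u v : Fin r → ℝ → ℂ, (∀ i, IntegrableOn (u i) (Icc 1 A)) ∧ (∀ i, IntegrableOn (v i) (Icc 1 A')) ∧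
    ∫ z in Icc 1 A ×ˢ Icc 1 A', ‖S (X * z.1 * z.2) - ∑ i, u i z.1 * v i z.2‖ ≤ ε

/-- the moment `m_{2k}(T) = T⁻¹ ∫_0^T |ζ(1/2 + it)|^{2k} dt` -/
noncomputable def m (k : ℕ) (T : ℝ) : ℝ := T⁻¹ * ∫ t in (0:ℝ)..T, ‖riemannZeta (1 / 2 + t * Complex.I)‖ ^ (2 * k)

theorem result (A A' : ℝ) (hA : 1 < A) (hA' : 1 < A') :
    List.TFAE
      -- all the moments are `O(T^ε)` for every `ε > 0`
      [∀ k : ℕ, ∀ ε : ℝ, 0 < ε → ∃ C : ℝ, ∀ T : ℝ, 1 ≤ T → m k T ≤ C * T ^ ε,
       -- moments of arbitrarily high order are `O(T)`
       ∀ k₀ : ℕ, ∃ k ≥ k₀, ∃ C : ℝ, ∀ᶠ T : ℝ in atTop, m k T ≤ C * T,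
       ∀ k : ℕ, ∀ η : ℝ, 0 < η → ∀ᶠ X : ℝ in atTop, WithinRank (D k) A A' k (X ^ (1 / 2 + η)) X,
       ∀ η : ℝ, 0 < η → ∀ k₀ : ℕ, ∃ k ≥ k₀, ∃ r : ℕ, ∀ᶠ X : ℝ in atTop,
        WithinRank (D k) A A' r (X ^ (1 / 2 + η)) X] := by
  have key := Pool.Agent.H480.K.small_tfae hA hA' (θ := 1 / 2) (by norm_num) (by norm_num)
  tfae_have 1 → 2 := fun h k₀ => by
    obtain ⟨C, hC⟩ := h k₀ 1 one_pos
    refine ⟨k₀, le_rfl, C, ?_⟩
    filter_upwards [eventually_ge_atTop 1] with T hT
    have := hC T hT
    rwa [Real.rpow_one] at this
  tfae_have 2 → 3 := fun h =>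
    (key.out 0 1).1 (Pool.Agent.Y853.PZ.small_of_lindelof (Pool.Agent.H480.K.lindelof_of_mom h))
  tfae_have 3 → 4 := (key.out 1 2).1
  tfae_have 4 → 1 := fun h k ε hε =>
    Pool.Agent.H480.K.mom_of_lindelof (Pool.Agent.Y853.PZ.lindelof_of_small ((key.out 0 2).2 h)) k hε
  tfae_finish

end Pool.Agent.Results.MP_80d0cf_nt.MomentsAndLocalRank
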