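import Pool.Agent.H313.SL.Cont2
import Pool.Graph.R_pool_sql_team_seeded_3997aac3.Q98.UM.Lem

set_option autoImplicit false

/-!
# MP_80d0cf_nt: the parts of the moments of zeta at the joint levels of its modulus and its argument

No hypothesis is made. `S(t)` is the remainder term of the Riemann-von Mangoldt formula. For ALL real `k`, `l`, `q` the part of the moment
`∫ |ζ(1/2 + it)|^(2q) dt` over `[T, 2T]` which comes from the `t` with `log |ζ(1/2 + it)| = k log log T + O(√(log log T))` and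
`π S(t) = l log log T + O(√(log log T))` is at least `T (log T)^(2qk - k² - l²) exp (-C √(log log T))`. For `q = 0` this is a lower bound for
the measure of the set; for `q = k` the exponent is `k² - l²`.
-/

namespace Pool.Agent.Results.MP_80d0cf_nt.MomentsAtJointLevels

open Filter Topology MeasureTheory Complex

noncomputable section

/-- the number `N(t)` of the nontrivial zeros with ordinate in `(0, t]`, counted with multiplicity -/
def N (t : ℝ) : ℕ := ∑ᶠ s ∈ {s : ℂ | riemannZeta s = 0 ∧ 0 < s.re ∧ s.re < 1 ∧ 0 < s.im ∧ s.im ≤ t}, analyticOrderNatAt riemannZeta s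

/-- the remainder term of the Riemann-von Mangoldt formula (`π⁻¹ arg ζ(1/2 + it)` up to `O(1/t)`) -/
def S (t : ℝ) : ℝ :=
  (N t : ℝ) - (t / (2 * Real.pi) * Real.log (t / (2 * Real.pi)) - t / (2 * Real.pi) + 7 / 8)

/-- the `t` in `[T, 2T]` for which `|ζ(1/2 + it)|` has the size `(log T)^k` and `π S(t)` the value `l log log T`, up to `A √(log log T)`
in both logarithms -/
def level (k l A T : ℝ) : Set ℝ := {t : ℝ | T ≤ t ∧ t ≤ 2 * T ∧
  |Real.log ‖riemannZeta (1 / 2 + t * I)‖ - k * Real.log (Real.log T)| ≤ A * Real.sqrt (Real.log (Real.log T)) ∧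
  |Real.pi * S t - l * Real.log (Real.log T)| ≤ A * Real.sqrt (Real.log (Real.log T))}

lemma N_eq (t : ℝ) : N t = H370.NN riemannZeta 0 t := by
  unfold N H370.NN
  have : {s : ℂ | riemannZeta s = 0 ∧ 0 < s.re ∧ s.re < 1 ∧ 0 < s.im ∧ s.im ≤ t} = H370.zset riemannZeta 0 t := by
    ext s
    simp only [H370.zset, Set.mem_ofPred_eq]
    tauto
  rw [this]
  rfl

lemma N_add {t : ℝ} (ht : 1 ≤ t) : (N t : ℝ) = N 1 + (H370.NN riemannZeta 1 t : ℝ) := by
  rw [N_eq, N_eq]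
  have h : H370.zset riemannZeta 0 t = H370.zset riemannZeta 0 1 ∪ H370.zset riemannZeta 1 t := by
    ext s
    simp only [H370.zset, Set.mem_ofPred_eq, Set.mem_union]
    constructor
    · rintro ⟨a1, a2, a3, a4, a5⟩
      rcases le_or_gt s.im 1 with h1 | h1
      · exact Or.inl ⟨a1, a2, a3, h1, a5⟩
      · exact Or.inr ⟨a1, a2, h1, a4, a5⟩
    · rintro (⟨a1, a2, a3, a4, a5⟩ | ⟨a1, a2, a3, a4, a5⟩)
      · exact ⟨a1, a2, a3, a4.trans ht, a5⟩
      · exact ⟨a1, a2, by linarith, a4, a5⟩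
  have hd : Disjoint (H370.zset riemannZeta 0 1) (H370.zset riemannZeta 1 t) := by
    rw [Set.disjoint_left]
    rintro s ⟨-, -, -, h1, -⟩ ⟨-, -, h2, -, -⟩
    linarith
  unfold H370.NN
  rw [h, finsum_mem_union hd (H370.zeta_zeros_finite 1) ((H370.zeta_zeros_finite t).subset ?_)]
  · push_cast
    ring
  · rintro s ⟨a1, a2, a3, a4, a5⟩
    exact ⟨a1, a2, by linarith, a4, a5⟩

lemma S_eq {t : ℝ} (ht : 1 ≤ t) : S t = Pool.Agent.K4H8.JG.E1 t + (N 1 - 7 / 8) := by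
  unfold S Pool.Agent.K4H8.JG.E1 Pool.Agent.K4H8.JG.Em
  rw [N_add ht]
  ring

lemma sub_fin {k l A T : ℝ} {G : Set ℝ} (hG : G ⊆ level k l A T) : volume G ≠ ⊤ := by
  have h1 : G ⊆ Set.Icc T (2 * T) := fun t ht => ⟨(hG ht).1, (hG ht).2.1⟩
  have h2 : volume (Set.Icc T (2 * T)) ≠ ⊤ := by
    rw [Real.volume_Icc]
    exact ENNReal.ofReal_ne_top
  exact ((measure_mono h1).trans_lt h2.lt_top).ne

/-- large deviations -/
theorem large_dev (k l : ℝ) : ∃ A C T₀ : ℝ, 0 < A ∧ ∀ T : ℝ, T₀ ≤ T →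
    ∃ G : Set ℝ, MeasurableSet G ∧ G ⊆ level k l A T ∧
      T * Real.exp (-(k ^ 2 + l ^ 2) * Real.log (Real.log T) - C * Real.sqrt (Real.log (Real.log T))) ≤ volume.real G := by
  obtain ⟨A, C, hA, hC, h⟩ := Pool.Agent.H313.SL.core_cont ((k : ℂ) + (l : ℂ) * I)
  have hll : Tendsto (fun T : ℝ => Real.log (Real.log T)) atTop atTop :=
    Real.tendsto_log_atTop.comp Real.tendsto_log_atTop
  obtain ⟨T₀, hT₀⟩ := eventually_atTop.1 (h.and ((eventually_ge_atTop (16 : ℝ)).and (hll.eventually_ge_atTop 1)))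
  obtain ⟨c, hc⟩ : ∃ c : ℝ, c = (N 1 : ℝ) - 7 / 8 := ⟨_, rfl⟩
  have hnorm : ‖(k : ℂ) + (l : ℂ) * I‖ ^ 2 = k ^ 2 + l ^ 2 := by
    rw [← Complex.normSq_eq_norm_sq, Complex.normSq_add_mul_I]
  have hre : ((k : ℂ) + (l : ℂ) * I).re = k := by simp
  have him : ((k : ℂ) + (l : ℂ) * I).im = l := by simp
  have hc0 : 0 ≤ Real.pi * |c| := by positivity
  refine ⟨A + Real.pi * |c|, C, T₀, by positivity, fun T hT => ?_⟩
  obtain ⟨⟨G, hG, hsub, h1⟩, h3, hS1⟩ := hT₀ T hT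
  have hSq1 : 1 ≤ Real.sqrt (Real.log (Real.log T)) := Real.one_le_sqrt.2 hS1
  rw [hnorm] at h1
  refine ⟨G, hG, fun t ht => ?_, h1⟩
  obtain ⟨⟨ht1, ht2⟩, g1, g2⟩ := hsub ht
  rw [hre] at g1
  rw [him] at g2
  have hcS : Real.pi * |c| ≤ Real.pi * |c| * Real.sqrt (Real.log (Real.log T)) := le_mul_of_one_le_right hc0 hSq1
  refine ⟨ht1, ht2, ?_, ?_⟩
  · have g1' : |Real.log ‖riemannZeta (1 / 2 + t * I)‖ - k * Real.log (Real.log T)| ≤ A * Real.sqrt (Real.log (Real.log T)) := g1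
    refine g1'.trans ?_
    rw [add_mul]
    linarith
  · rw [S_eq (by linarith), ← hc]
    have e2 : Real.pi * (Pool.Agent.K4H8.JG.E1 t + c) - l * Real.log (Real.log T) =
        (Real.pi * Pool.Agent.K4H8.JG.E1 t - l * Real.log (Real.log T)) + Real.pi * c := by ring
    rw [e2]
    refine (abs_add_le _ _).trans ?_
    rw [abs_mul Real.pi c, abs_of_pos Real.pi_pos, add_mul]
    linarith

theorem result : ∀ k l q : ℝ, ∃ A C T₀ : ℝ, ∀ T : ℝ, T₀ ≤ T →
    ENNReal.ofReal (T * Real.log T ^ (2 * q * k - k ^ 2 - l ^ 2) * Real.exp (-C * Real.sqrt (Real.log (Real.log T)))) ≤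
      ∫⁻ t in level k l A T, ENNReal.ofReal (‖riemannZeta (1 / 2 + t * I)‖ ^ (2 * q)) := by
  intro k l q
  obtain ⟨A, C, T₀, hA, h⟩ := large_dev k l
  have hll : Tendsto (fun T : ℝ => Real.log (Real.log T)) atTop atTop :=
    Real.tendsto_log_atTop.comp Real.tendsto_log_atTop
  obtain ⟨T₁, hT₁⟩ := eventually_atTop.1 ((eventually_ge_atTop (16 : ℝ)).and (hll.eventually_ge_atTop 1))
  obtain ⟨C', hC'⟩ : ∃ C', C' = C + 2 * |q| * A := ⟨_, rfl⟩
  refine ⟨A, C', max T₀ T₁, fun T hT => ?_⟩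
  obtain ⟨hT16, hS1⟩ := hT₁ T ((le_max_right _ _).trans hT)
  obtain ⟨G, hG, hGl, h0⟩ := h T ((le_max_left _ _).trans hT)
  have hL : 0 < Real.log T := Real.log_pos (by linarith)
  have hT0 : 0 < T := by linarith
  obtain ⟨u, hu⟩ : ∃ u, u = Real.log (Real.log T) := ⟨_, rfl⟩
  obtain ⟨w, hw⟩ : ∃ w, w = Real.exp (2 * q * k * u - 2 * |q| * A * Real.sqrt u) := ⟨_, rfl⟩
  have hw0 : 0 < w := by rw [hw]; exact Real.exp_pos _
  have hpt : ∀ᵐ t : ℝ, t ∈ G → ENNReal.ofReal w ≤ ENNReal.ofReal (‖riemannZeta (1 / 2 + t * I)‖ ^ (2 * q)) := by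
    have hae : ∀ᵐ t : ℝ, Pool.Agent.Q97.UM.zt t ≠ 0 := by
      have := Pool.Agent.Q98.UM.ae_zt 0
      simpa using this
    refine hae.mono fun t ht htG => ENNReal.ofReal_le_ofReal ?_
    have ht' : riemannZeta (1 / 2 + t * I) ≠ 0 := ht
    obtain ⟨-, -, g1, -⟩ := hGl htG
    rw [← hu] at g1
    rw [Real.rpow_def_of_pos (norm_pos_iff.2 ht'), hw]
    apply Real.exp_le_exp.2
    have e1 : Real.log ‖riemannZeta (1 / 2 + t * I)‖ * (2 * q) = 2 * q * k * u +
        2 * (q * (Real.log ‖riemannZeta (1 / 2 + t * I)‖ - k * u)) := by ring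
    have h4 : |q * (Real.log ‖riemannZeta (1 / 2 + t * I)‖ - k * u)| ≤ |q| * (A * Real.sqrt u) := by
      rw [abs_mul]
      exact mul_le_mul_of_nonneg_left g1 (abs_nonneg _)
    have h5 := (abs_le.1 h4).1
    rw [e1]
    linarith
  have h2 : ENNReal.ofReal w * volume G ≤ ∫⁻ t in level k l A T, ENNReal.ofReal (‖riemannZeta (1 / 2 + t * I)‖ ^ (2 * q)) := by
    calc ENNReal.ofReal w * volume G = ∫⁻ _ in G, ENNReal.ofReal w := (setLIntegral_const G (ENNReal.ofReal w)).symm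
      _ ≤ ∫⁻ t in G, ENNReal.ofReal (‖riemannZeta (1 / 2 + t * I)‖ ^ (2 * q)) :=
          lintegral_mono_ae ((ae_restrict_iff' hG).2 hpt)
      _ ≤ _ := lintegral_mono_set hGl
  refine le_trans ?_ h2
  rw [← ENNReal.ofReal_toReal (sub_fin hGl), ← ENNReal.ofReal_mul hw0.le]
  apply ENNReal.ofReal_le_ofReal
  have h4 : w * (T * Real.exp (-(k ^ 2 + l ^ 2) * Real.log (Real.log T) - C * Real.sqrt (Real.log (Real.log T)))) ≤
      w * (volume G).toReal := mul_le_mul_of_nonneg_left h0 hw0.le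
  refine le_trans (le_of_eq ?_) h4
  rw [Real.rpow_def_of_pos hL, mul_assoc, ← Real.exp_add, hw, mul_left_comm, ← Real.exp_add, ← hu, hC']
  congr 2
  ring

end

end Pool.Agent.Results.MP_80d0cf_nt.MomentsAtJointLevels
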